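import Mathlib

set_option linter.unusedVariables false
set_option linter.unusedSectionVars false

namespace Pool.Agent.Results.MP_34d506_co.NotEqual

/-! ### Definitions -/

/-- SEG: intersection graphs of straight-line segments in the plane. -/
def IsSEG {V : Type} (K : SimpleGraph V) : Prop :=
  ∃ p q : V → ℝ × ℝ, (∀ v, p v ≠ q v) ∧
    ∀ u v, u ≠ v → (K.Adj u v ↔ (segment ℝ (p u) (q u) ∩ segment ℝ (p v) (q v)).Nonempty)

/-- The grid path with corner `(x, y)`, one end `(h, y)` and other end `(x, w)`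
(at most one bend; straight if `h = x` or `w = y`). -/
def GridPath (x y h w : ℤ) : Set (ℝ × ℝ) :=
  {p | p.2 = (y : ℝ) ∧ p.1 ∈ Set.uIcc (x : ℝ) (h : ℝ)} ∪
    {p | p.1 = (x : ℝ) ∧ p.2 ∈ Set.uIcc (y : ℝ) (w : ℝ)}

/-- `B₁`-VPG: intersection graphs of grid paths with at most one bend. -/
def IsB1VPG {V : Type} (K : SimpleGraph V) : Prop :=
  ∃ x y h w : V → ℤ, ∀ u v, u ≠ v →
    (K.Adj u v ↔ (GridPath (x u) (y u) (h u) (w u) ∩ GridPath (x v) (y v) (h v) (w v)).Nonempty)

/-- The shape with corner `(x, y)`, horizontal segment from `(x, y)` to the right up to `(r, y)` and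
vertical segment from `(x, y)` to `(x, s)`: an L-shape if `y < s`, a Γ-shape if `s < y`. -/
def LGShape (x y s r : ℝ) : Set (ℝ × ℝ) :=
  {p | p.1 = x ∧ p.2 ∈ Set.uIcc y s} ∪ {p | p.2 = y ∧ x ≤ p.1 ∧ p.1 ≤ r}

/-- `{L, Γ}`-graphs. -/
def IsLGamma {V : Type} (K : SimpleGraph V) : Prop :=
  ∃ x y s r : V → ℝ, (∀ v, s v ≠ y v ∧ x v < r v) ∧
    ∀ u v, u ≠ v → (K.Adj u v ↔
      (LGShape (x u) (y u) (s u) (r u) ∩ LGShape (x v) (y v) (s v) (r v)).Nonempty)

/-! ### The graph: join of three blocks, each block is two cliques of size 12 plus six paths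
`a1 - b1 - a2 - b2` -/

/-- adjacency -/
def kadj (u v : ℕ) : Bool :=
  u != v && (u / 24 != v / 24 || u % 2 == v % 2 || (u / 4 == v / 4 && (u + 1 == v || v + 1 == u)))

theorem kadj_iff (u v : ℕ) : kadj u v = true ↔ u ≠ v ∧ (u / 24 ≠ v / 24 ∨ u % 2 = v % 2 ∨
    (u / 4 = v / 4 ∧ (u + 1 = v ∨ v + 1 = u))) := by
  unfold kadj
  simp only [Bool.and_eq_true, Bool.or_eq_true, bne_iff_ne, beq_iff_eq, ne_eq]
  tauto

/-- the graph -/
def KK : SimpleGraph (Fin 72) where
  Adj u v := kadj u.val v.val = true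
  symm := ⟨fun u v h => by rw [kadj_iff] at h ⊢; omega⟩
  loopless := ⟨fun u h => by rw [kadj_iff] at h; exact h.1 rfl⟩

theorem KK_adj (u v : Fin 72) : KK.Adj u v ↔ u.val ≠ v.val ∧ (u.val / 24 ≠ v.val / 24 ∨
    u.val % 2 = v.val % 2 ∨ (u.val / 4 = v.val / 4 ∧ (u.val + 1 = v.val ∨ v.val + 1 = u.val))) :=
  kadj_iff u.val v.val

/-! ### Segments -/

/-- orientation -/
def orR (a b c : ℝ × ℝ) : ℝ := (b.1 - a.1) * (c.2 - a.2) - (b.2 - a.2) * (c.1 - a.1)

theorem orR_seg (a b c d : ℝ × ℝ) (q : ℝ × ℝ) (hq : q ∈ segment ℝ c d) :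
    ∃ s t : ℝ, 0 ≤ s ∧ 0 ≤ t ∧ s + t = 1 ∧ orR a b q = s * orR a b c + t * orR a b d := by
  obtain ⟨s, t, hs, ht, hst, rfl⟩ := hq
  refine ⟨s, t, hs, ht, hst, ?_⟩
  have : s = 1 - t := by linarith
  subst this
  simp only [orR, Prod.fst_add, Prod.snd_add, Prod.smul_fst, Prod.smul_snd, smul_eq_mul]
  ring

theorem seg_disj (a b c d : ℝ × ℝ) (h : 0 < orR a b c * orR a b d) :
    ¬ (segment ℝ a b ∩ segment ℝ c d).Nonempty := by
  rintro ⟨q, h1, h2⟩
  obtain ⟨s, t, hs, ht, hst, e⟩ := orR_seg a b c d q h2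
  obtain ⟨s', t', hs', ht', hst', e'⟩ := orR_seg a b a b q h1
  have z1 : orR a b a = 0 := by simp [orR]
  have z2 : orR a b b = 0 := by simp only [orR]; ring
  rw [z1, z2] at e'
  have e0 : s * orR a b c + t * orR a b d = 0 := by rw [← e, e']; ring
  rcases lt_trichotomy (orR a b c) 0 with hc | hc | hc
  · have hd : orR a b d < 0 := by
      by_contra hh
      have := mul_nonpos_of_nonpos_of_nonneg hc.le (not_lt.1 hh)
      linarith
    rcases hs.eq_or_lt with h0 | h0
    · have : t = 1 := by linarith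
      rw [← h0, this] at e0
      linarith
    · have i1 := mul_neg_of_pos_of_neg h0 hc
      have i2 := mul_nonpos_of_nonneg_of_nonpos ht hd.le
      linarith
  · rw [hc] at h
    linarith
  · have hd : 0 < orR a b d := by
      by_contra hh
      have := mul_nonpos_of_nonneg_of_nonpos hc.le (not_lt.1 hh)
      linarith
    rcases hs.eq_or_lt with h0 | h0
    · have : t = 1 := by linarith
      rw [← h0, this] at e0
      linarith
    · have i1 := mul_pos h0 hc
      have i2 := mul_nonneg ht hd.le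
      linarith

theorem seg_disj' (a b c d : ℝ × ℝ) (h : 0 < orR c d a * orR c d b) :
    ¬ (segment ℝ a b ∩ segment ℝ c d).Nonempty := by
  rw [Set.inter_comm]
  exact seg_disj c d a b h

theorem frac_bounds (p q : ℝ) (h : p * q < 0) : 0 ≤ p / (p - q) ∧ p / (p - q) ≤ 1 := by
  rcases lt_trichotomy p 0 with hp | hp | hp
  · have hq : 0 < q := by
      by_contra hh
      have := mul_nonneg_of_nonpos_of_nonpos hp.le (not_lt.1 hh)
      linarith
    have hd : p - q < 0 := by linarith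
    refine ⟨div_nonneg_of_nonpos hp.le hd.le, ?_⟩
    rw [div_le_one_of_neg hd]
    linarith
  · rw [hp] at h
    linarith
  · have hq : q < 0 := by
      by_contra hh
      have := mul_nonneg hp.le (not_lt.1 hh)
      linarith
    have hd : 0 < p - q := by linarith
    refine ⟨div_nonneg hp.le hd.le, ?_⟩
    rw [div_le_one hd]
    linarith

theorem seg_cross (a b c d : ℝ × ℝ) (h1 : orR a b c * orR a b d < 0)
    (h2 : orR c d a * orR c d b < 0) : (segment ℝ a b ∩ segment ℝ c d).Nonempty := by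
  obtain ⟨f1, f2⟩ := frac_bounds _ _ h1
  obtain ⟨g1, g2⟩ := frac_bounds _ _ h2
  have hD1 : orR a b c - orR a b d ≠ 0 := by
    intro h0
    have : orR a b c = orR a b d := by linarith
    rw [this] at h1
    nlinarith [sq_nonneg (orR a b d)]
  have hD : orR c d a - orR c d b = -(orR a b c - orR a b d) := by
    simp only [orR]; ring
  have hD2 : orR c d a - orR c d b ≠ 0 := by
    rw [hD]; exact neg_ne_zero.2 hD1
  refine ⟨(1 - orR a b c / (orR a b c - orR a b d)) • c +
    (orR a b c / (orR a b c - orR a b d)) • d, ?_, ?_⟩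
  · refine ⟨1 - orR c d a / (orR c d a - orR c d b), orR c d a / (orR c d a - orR c d b),
      by linarith, g1, by ring, ?_⟩
    rw [hD]
    apply Prod.ext
    · simp only [Prod.fst_add, Prod.smul_fst, smul_eq_mul]
      field_simp
      simp only [orR]
      ring
    · simp only [Prod.snd_add, Prod.smul_snd, smul_eq_mul]
      field_simp
      simp only [orR]
      ring
  · exact ⟨_, _, by linarith, f1, by ring, rfl⟩

/-! ### Data -/
/-- ends of the segments -/
def segData : List (ℤ × ℤ × ℤ × ℤ) := [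
  (-5000, 315, 622, 6), (-5000, -320, 622, 17), (-5000, 320, 622, -17), (-5000, -315, 622, -6), (-5000, 305, 1622, 7), (-5000, -310, 1622, 21),
  (-5000, 310, 1622, -21), (-5000, -305, 1622, -7), (-5000, 295, 3172, 9), (-5000, -300, 3172, 27), (-5000, 300, 3172, -27), (-5000, -295, 3172, -9),
  (-5000, 285, 5905, 12), (-5000, -290, 5905, 37), (-5000, 290, 5905, -37), (-5000, -285, 5905, -12), (-5000, 275, 12000, 20), (-5000, -280, 12000, 60),
  (-5000, 280, 12000, -60), (-5000, -275, 12000, -20), (-5000, 265, 37600, 52), (-5000, -270, 37600, 156), (-5000, 270, 37600, -156), (-5000, -265, 37600, -52),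
  (315, -5000, 6, 622), (-320, -5000, 17, 622), (320, -5000, -17, 622), (-315, -5000, -6, 622), (305, -5000, 7, 1622), (-310, -5000, 21, 1622),
  (310, -5000, -21, 1622), (-305, -5000, -7, 1622), (295, -5000, 9, 3172), (-300, -5000, 27, 3172), (300, -5000, -27, 3172), (-295, -5000, -9, 3172),
  (285, -5000, 12, 5905), (-290, -5000, 37, 5905), (290, -5000, -37, 5905), (-285, -5000, -12, 5905), (275, -5000, 20, 12000), (-280, -5000, 60, 12000),
  (280, -5000, -60, 12000), (-275, -5000, -20, 12000), (265, -5000, 52, 37600), (-270, -5000, 156, 37600), (270, -5000, -156, 37600), (-265, -5000, -52, 37600),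
  (-5315, -4685, 616, 628), (-4680, -5320, 605, 640), (-5320, -4680, 640, 605), (-4685, -5315, 628, 616), (-5305, -4695, 1615, 1629), (-4690, -5310, 1601, 1643),
  (-5310, -4690, 1643, 1601), (-4695, -5305, 1629, 1615), (-5295, -4705, 3163, 3181), (-4700, -5300, 3146, 3199), (-5300, -4700, 3199, 3146), (-4705, -5295, 3181, 3163),
  (-5285, -4715, 5892, 5917), (-4710, -5290, 5868, 5942), (-5290, -4710, 5942, 5868), (-4715, -5285, 5917, 5892), (-5275, -4725, 11980, 12020), (-4720, -5280, 11940, 12060),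
  (-5280, -4720, 12060, 11940), (-4725, -5275, 12020, 11980), (-5265, -4735, 37548, 37652), (-4730, -5270, 37444, 37756), (-5270, -4730, 37756, 37444), (-4735, -5265, 37652, 37548)]

/-- grid paths: corner, horizontal end, vertical end -/
def vpgData : List (ℤ × ℤ × ℤ × ℤ) := [
  (131, 94, 6, 10), (125, 76, 12, 97), (132, 90, 19, 8), (117, 91, 5, 69), (135, 65, 23, 31), (25, 84, 124, 62),
  (134, 67, 22, 23), (119, 85, 14, 66), (69, 64, 142, 21), (18, 63, 116, 93), (24, 55, 133, 71), (17, 70, 118, 89),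
  (20, 61, 143, 22), (21, 80, 121, 59), (7, 60, 138, 83), (120, 82, 4, 68), (16, 56, 137, 73), (122, 72, 11, 88),
  (15, 57, 136, 75), (123, 74, 13, 87), (129, 54, 26, 96), (130, 78, 8, 86), (10, 58, 141, 81), (9, 79, 126, 77),
  (90, 132, 68, 13), (79, 38, 57, 133), (91, 130, 65, 9), (76, 37, 55, 131), (83, 11, 3, 143), (84, 40, 56, 128),
  (81, 98, 140, 14), (82, 39, 54, 126), (48, 27, 128, 100), (67, 26, 73, 129), (87, 29, 30, 137), (66, 28, 78, 125),
  (50, 25, 127, 99), (74, 34, 49, 127), (53, 24, 101, 124), (71, 33, 52, 123), (89, 134, 63, 12), (64, 30, 77, 138),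
  (88, 135, 61, 15), (62, 32, 72, 136), (85, 141, 51, 17), (59, 36, 75, 142), (86, 139, 58, 16), (60, 35, 80, 140),
  (31, 51, 96, 121), (105, 120, 2, 20), (106, 53, 29, 101), (104, 122, 1, 19), (47, 42, 103, 102), (115, 43, 0, 95),
  (70, 18, 97, 103), (27, 41, 139, 92), (102, 52, 28, 105), (114, 104, 45, 7), (46, 44, 95, 107), (113, 106, 44, 6),
  (35, 49, 94, 117), (108, 116, 33, 5), (34, 50, 100, 119), (107, 118, 32, 4), (39, 47, 99, 113), (110, 112, 37, 3),
  (38, 48, 93, 115), (109, 114, 36, 2), (43, 45, 98, 109), (112, 108, 41, 1), (42, 46, 92, 111), (111, 110, 40, 0)]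

/-- orientation over the integers -/
def orZ (a b c : ℤ × ℤ) : ℤ := (b.1 - a.1) * (c.2 - a.2) - (b.2 - a.2) * (c.1 - a.1)

/-- cast of a point -/
def cst (a : ℤ × ℤ) : ℝ × ℝ := ((a.1 : ℝ), (a.2 : ℝ))

theorem orR_cst (a b c : ℤ × ℤ) : orR (cst a) (cst b) (cst c) = (orZ a b c : ℝ) := by
  simp only [orR, orZ, cst]
  push_cast
  ring

/-- first end of segment `u` -/
def sp (u : ℕ) : ℤ × ℤ := ((segData.getD u (0, 0, 0, 0)).1, (segData.getD u (0, 0, 0, 0)).2.1)
/-- second end of segment `u` -/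
def sq (u : ℕ) : ℤ × ℤ := ((segData.getD u (0, 0, 0, 0)).2.2.1, (segData.getD u (0, 0, 0, 0)).2.2.2)

/-- exact integer test of the segment representation for one pair -/
def segTest (u v : ℕ) : Bool :=
  if kadj u v then
    decide (orZ (sp u) (sq u) (sp v) * orZ (sp u) (sq u) (sq v) < 0) &&
      decide (orZ (sp v) (sq v) (sp u) * orZ (sp v) (sq v) (sq u) < 0)
  else
    decide (0 < orZ (sp u) (sq u) (sp v) * orZ (sp u) (sq u) (sq v)) ||
      decide (0 < orZ (sp v) (sq v) (sp u) * orZ (sp v) (sq v) (sq u))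

theorem segTest_all : ∀ u : Fin 72, ∀ v : Fin 72, u ≠ v → segTest u.val v.val = true := by
  decide +kernel

theorem seg_ne : ∀ u : Fin 72, sp u.val ≠ sq u.val := by
  decide +kernel

theorem KK_seg : IsSEG KK := by
  refine ⟨fun u => cst (sp u.val), fun u => cst (sq u.val), ?_, ?_⟩
  · intro u h
    apply seg_ne u
    have h1 := congrArg Prod.fst h
    have h2 := congrArg Prod.snd h
    simp only [cst] at h1 h2
    exact Prod.ext (by exact_mod_cast h1) (by exact_mod_cast h2)
  · intro u v huv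
    have ht := segTest_all u v huv
    unfold segTest at ht
    by_cases hk : kadj u.val v.val = true
    · rw [if_pos hk] at ht
      simp only [Bool.and_eq_true, decide_eq_true_eq] at ht
      refine ⟨fun _ => ?_, fun _ => hk⟩
      apply seg_cross
      · rw [orR_cst, orR_cst]
        exact_mod_cast ht.1
      · rw [orR_cst, orR_cst]
        exact_mod_cast ht.2
    · rw [if_neg hk] at ht
      simp only [Bool.or_eq_true, decide_eq_true_eq] at ht
      refine ⟨fun h => absurd h hk, fun h => ?_⟩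
      exfalso
      rcases ht with ht | ht
      · refine seg_disj _ _ _ _ ?_ h
        rw [orR_cst, orR_cst]
        exact_mod_cast ht
      · refine seg_disj' _ _ _ _ ?_ h
        rw [orR_cst, orR_cst]
        exact_mod_cast ht

/-! ### Grid paths -/

/-- `p` between `a` and `b` -/
def btw (p a b : ℤ) : Bool := (decide (a ≤ p) && decide (p ≤ b)) || (decide (b ≤ p) && decide (p ≤ a))

theorem btw_iff (p a b : ℤ) : btw p a b = true ↔ (p : ℝ) ∈ Set.uIcc (a : ℝ) (b : ℝ) := by
  unfold btw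
  rw [Set.mem_uIcc]
  simp only [Bool.or_eq_true, Bool.and_eq_true, decide_eq_true_eq, Int.cast_le]

theorem grid_iff (x y h w x' y' h' w' : ℤ) (hx : x ≠ x') (hy : y ≠ y') :
    (GridPath x y h w ∩ GridPath x' y' h' w').Nonempty ↔
      ((btw x' x h && btw y y' w') || (btw x x' h' && btw y' y w)) = true := by
  simp only [Bool.or_eq_true, Bool.and_eq_true, btw_iff]
  constructor
  · rintro ⟨p, h1, h2⟩
    rcases h1 with ⟨a1, a2⟩ | ⟨a1, a2⟩ <;> rcases h2 with ⟨b1, b2⟩ | ⟨b1, b2⟩
    · exfalso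
      apply hy
      have : (y : ℝ) = (y' : ℝ) := by rw [← a1, ← b1]
      exact_mod_cast this
    · left
      rw [b1] at a2
      rw [a1] at b2
      exact ⟨a2, b2⟩
    · right
      rw [a1] at b2
      rw [b1] at a2
      exact ⟨b2, a2⟩
    · exfalso
      apply hx
      have : (x : ℝ) = (x' : ℝ) := by rw [← a1, ← b1]
      exact_mod_cast this
  · rintro (⟨h1, h2⟩ | ⟨h1, h2⟩)
    · exact ⟨((x' : ℝ), (y : ℝ)), Or.inl ⟨rfl, h1⟩, Or.inr ⟨rfl, h2⟩⟩
    · exact ⟨((x : ℝ), (y' : ℝ)), Or.inr ⟨rfl, h2⟩, Or.inl ⟨rfl, h1⟩⟩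

/-- corner abscissa -/
def gx (u : ℕ) : ℤ := (vpgData.getD u (0, 0, 0, 0)).1
/-- corner ordinate -/
def gy (u : ℕ) : ℤ := (vpgData.getD u (0, 0, 0, 0)).2.1
/-- horizontal end -/
def gh (u : ℕ) : ℤ := (vpgData.getD u (0, 0, 0, 0)).2.2.1
/-- vertical end -/
def gw (u : ℕ) : ℤ := (vpgData.getD u (0, 0, 0, 0)).2.2.2

/-- exact integer test of the grid path representation for one pair -/
def gridTest (u v : ℕ) : Bool :=
  decide (gx u ≠ gx v) && decide (gy u ≠ gy v) &&
    (kadj u v == ((btw (gx v) (gx u) (gh u) && btw (gy u) (gy v) (gw v)) ||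
      (btw (gx u) (gx v) (gh v) && btw (gy v) (gy u) (gw u))))

theorem gridTest_all : ∀ u : Fin 72, ∀ v : Fin 72, u ≠ v → gridTest u.val v.val = true := by
  decide +kernel

theorem KK_vpg : IsB1VPG KK := by
  refine ⟨fun u => gx u.val, fun u => gy u.val, fun u => gh u.val, fun u => gw u.val, ?_⟩
  intro u v huv
  have ht := gridTest_all u v huv
  unfold gridTest at ht
  simp only [Bool.and_eq_true, decide_eq_true_eq, beq_iff_eq] at ht
  rw [grid_iff _ _ _ _ _ _ _ _ ht.1.1 ht.1.2, ← ht.2]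
  exact Iff.rfl

/-! ### The graph is not an `{L, Γ}`-graph -/

theorem LG_same {x y s r x' y' s' r' : ℝ} (hr : x < r) (hr' : x' < r') (hx : x = x') :
    (LGShape x y s r ∩ LGShape x' y' s' r').Nonempty ↔
      min y s ≤ max y' s' ∧ min y' s' ≤ max y s := by
  constructor
  · rintro ⟨p, h1, h2⟩
    have a1 : min y s ≤ p.2 ∧ p.2 ≤ max y s := by
      rcases h1 with ⟨_, h⟩ | ⟨h, _, _⟩
      · exact h
      · rw [h]; exact ⟨min_le_left _ _, le_max_left _ _⟩
    have a2 : min y' s' ≤ p.2 ∧ p.2 ≤ max y' s' := by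
      rcases h2 with ⟨_, h⟩ | ⟨h, _, _⟩
      · exact h
      · rw [h]; exact ⟨min_le_left _ _, le_max_left _ _⟩
    exact ⟨a1.1.trans a2.2, a2.1.trans a1.2⟩
  · rintro ⟨h1, h2⟩
    refine ⟨(x, max (min y s) (min y' s')), Or.inl ⟨rfl, ?_⟩, Or.inl ⟨hx, ?_⟩⟩
    · exact ⟨le_max_left _ _, max_le (min_le_left _ _ |>.trans (le_max_left _ _)) h2⟩
    · exact ⟨le_max_right _ _, max_le h1 (min_le_left _ _ |>.trans (le_max_left _ _))⟩

theorem LG_lt {x y s r x' y' s' r' : ℝ} (hr : x < r) (hr' : x' < r') (hx : x < x') :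
    (LGShape x y s r ∩ LGShape x' y' s' r').Nonempty ↔
      x' ≤ r ∧ min y' s' ≤ y ∧ y ≤ max y' s' := by
  constructor
  · rintro ⟨p, h1, h2⟩
    have hp : x' ≤ p.1 := by
      rcases h2 with ⟨h, _⟩ | ⟨_, h, _⟩
      · exact h.ge
      · exact h
    have h3 : p.2 = y ∧ p.1 ≤ r := by
      rcases h1 with ⟨h, _⟩ | ⟨h, _, h'⟩
      · exfalso
        linarith
      · exact ⟨h, h'⟩
    refine ⟨hp.trans h3.2, ?_⟩
    rcases h2 with ⟨_, h⟩ | ⟨h, _, _⟩
    · rw [← h3.1]; exact h
    · rw [← h3.1, h]; exact ⟨min_le_left _ _, le_max_left _ _⟩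
  · rintro ⟨h1, h2, h3⟩
    exact ⟨(x', y), Or.inr ⟨rfl, hx.le, h1⟩, Or.inl ⟨rfl, h2, h3⟩⟩

/-- vertex number `j` of component `p` of block `c` -/
def vtx (c p j : ℕ) (h : c < 3 ∧ p < 6 ∧ j < 4) : Fin 72 := ⟨24 * c + 4 * p + j, by omega⟩

theorem not_LG : ¬ IsLGamma KK := by
  rintro ⟨x, y, s, r, hpos, hrep⟩
  obtain ⟨z, hz⟩ := Finite.exists_max x
  obtain ⟨m0, hm0⟩ := Finite.exists_min x
  obtain ⟨c, hc3, hcz, hcm⟩ : ∃ c, c < 3 ∧ c ≠ z.val / 24 ∧ c ≠ m0.val / 24 := by
    have h1 := z.isLt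
    have h2 := m0.isLt
    by_cases a0 : 0 ≠ z.val / 24 ∧ 0 ≠ m0.val / 24
    · exact ⟨0, by omega, a0.1, a0.2⟩
    · by_cases a1 : 1 ≠ z.val / 24 ∧ 1 ≠ m0.val / 24
      · exact ⟨1, by omega, a1.1, a1.2⟩
      · exact ⟨2, by omega, by omega, by omega⟩
  -- arms of the vertices of block `c` are full
  have hR : ∀ u : Fin 72, u.val / 24 = c → ∀ v, x v ≤ r u := by
    intro u hu v
    refine (hz v).trans ?_
    have hne : u ≠ z := by
      rintro rfl
      exact hcz hu.symm
    have hadj : KK.Adj u z := by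
      rw [KK_adj]
      have : u.val ≠ z.val := fun h => hne (Fin.ext h)
      exact ⟨this, Or.inl (by omega)⟩
    have hint := (hrep u z hne).1 hadj
    rcases (hz u).lt_or_eq with h | h
    · exact ((LG_lt (hpos u).2 (hpos z).2 h).1 hint).1
    · rw [← h]; exact (hpos u).2.le
  have hM : ∀ u : Fin 72, u.val / 24 = c → x m0 < x u →
      min (y u) (s u) ≤ y m0 ∧ y m0 ≤ max (y u) (s u) := by
    intro u hu hlt
    have hne : m0 ≠ u := by
      rintro rfl
      exact hcm hu.symm
    have hadj : KK.Adj m0 u := by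
      rw [KK_adj]
      have : m0.val ≠ u.val := fun h => hne (Fin.ext h)
      exact ⟨this, Or.inl (by omega)⟩
    exact ((LG_lt (hpos m0).2 (hpos u).2 hlt).1 ((hrep m0 u hne).1 hadj)).2
  -- adjacency inside block `c` of an earlier and a later vertex
  have hlt : ∀ u v : Fin 72, u.val / 24 = c → x u < x v →
      (KK.Adj u v ↔ min (y v) (s v) ≤ y u ∧ y u ≤ max (y v) (s v)) := by
    intro u v hu hlt
    have hne : u ≠ v := by
      rintro rfl
      exact lt_irrefl _ hlt
    rw [hrep u v hne, LG_lt (hpos u).2 (hpos v).2 hlt]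
    exact ⟨fun h => h.2, fun h => ⟨hR u hu v, h⟩⟩
  have heq : ∀ u v : Fin 72, u ≠ v → x u = x v →
      (KK.Adj u v ↔ min (y u) (s u) ≤ max (y v) (s v) ∧ min (y v) (s v) ≤ max (y u) (s u)) := by
    intro u v hne h
    rw [hrep u v hne, LG_same (hpos u).2 (hpos v).2 h]
  -- classes
  set T : Fin 72 → Prop := fun u => if x u = x m0 then y m0 ≤ y u else s u < y u with hT
  have hTup : ∀ u : Fin 72, u.val / 24 = c → T u → y m0 ≤ y u := by
    intro u hu hTu
    by_cases h : x u = x m0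
    · rw [hT] at hTu
      simp only [h, if_true] at hTu
      exact hTu
    · rw [hT] at hTu
      simp only [if_neg h] at hTu
      have h2 := hM u hu (lt_of_le_of_ne (hm0 u) (Ne.symm h))
      rw [max_eq_left hTu.le] at h2
      exact h2.2
  have hTdn : ∀ u : Fin 72, u.val / 24 = c → ¬ T u → y u ≤ y m0 := by
    intro u hu hTu
    by_cases h : x u = x m0
    · rw [hT] at hTu
      simp only [h, if_true, not_le] at hTu
      exact hTu.le
    · rw [hT] at hTu
      simp only [if_neg h, not_lt] at hTu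
      have h2 := hM u hu (lt_of_le_of_ne (hm0 u) (Ne.symm h))
      rw [min_eq_left hTu] at h2
      exact h2.1
  -- two vertices of one side and one class with later neighbours on the other side lie in one
  -- component
  have key : ∀ e1 e2 a2 : Fin 72, e1.val / 24 = c → e2.val / 24 = c → a2.val / 24 = c →
      e1.val % 2 = e2.val % 2 → a2.val % 2 ≠ e2.val % 2 → (T e1 ↔ T e2) →
      x e2 < x a2 → KK.Adj e2 a2 →
      (x e1 < x e2 ∨ (x e1 = x e2 ∧ ((T e2 ∧ y e1 ≤ y e2) ∨ (¬ T e2 ∧ y e2 ≤ y e1)))) →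
      e1.val / 4 = e2.val / 4 := by
    intro e1 e2 a2 h1 h2 h3 hs hs' hcl hx hadj hord
    have ha2 : x m0 < x a2 := lt_of_le_of_lt (hm0 e2) hx
    have hM2 := hM a2 h3 ha2
    have hint := (hlt e2 a2 h2 hx).1 hadj
    have hx1 : x e1 < x a2 := by
      rcases hord with h | h
      · exact h.trans hx
      · rw [h.1]; exact hx
    -- e1 meets a2
    have hmeet : min (y a2) (s a2) ≤ y e1 ∧ y e1 ≤ max (y a2) (s a2) := by
      by_cases hTe : T e2
      · have u1 := hTup e1 h1 (hcl.2 hTe)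
        refine ⟨hM2.1.trans u1, le_trans ?_ hint.2⟩
        rcases hord with h | ⟨_, h | h⟩
        · -- earlier, same side: adjacent
          have hadj12 : KK.Adj e1 e2 := by
            rw [KK_adj]
            refine ⟨?_, Or.inr (Or.inl hs)⟩
            intro hh
            have : e1 = e2 := Fin.ext hh
            rw [this] at h
            exact lt_irrefl _ h
          have h12 := (hlt e1 e2 h1 h).1 hadj12
          have hne : ¬ (x e2 = x m0) := by
            intro hh
            have := hm0 e1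
            linarith
          have hty : s e2 < y e2 := by
            rw [hT] at hTe
            simp only [if_neg hne] at hTe
            exact hTe
          rw [max_eq_left hty.le] at h12
          exact h12.2
        · exact h.2
        · exact absurd hTe h.1
      · have u1 := hTdn e1 h1 (fun hh => hTe (hcl.1 hh))
        refine ⟨le_trans hint.1 ?_, u1.trans hM2.2⟩
        rcases hord with h | ⟨_, h | h⟩
        · have hadj12 : KK.Adj e1 e2 := by
            rw [KK_adj]
            refine ⟨?_, Or.inr (Or.inl hs)⟩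
            intro hh
            have : e1 = e2 := Fin.ext hh
            rw [this] at h
            exact lt_irrefl _ h
          have h12 := (hlt e1 e2 h1 h).1 hadj12
          have hne : ¬ (x e2 = x m0) := by
            intro hh
            have := hm0 e1
            linarith
          have hty : ¬ (s e2 < y e2) := by
            intro hh
            apply hTe
            rw [hT]
            simp only [if_neg hne]
            exact hh
          rw [min_eq_left (not_lt.1 hty)] at h12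
          exact h12.1
        · exact absurd h.1 hTe
        · exact h.2
    have hadj1 := (hlt e1 a2 h1 hx1).2 hmeet
    rw [KK_adj] at hadj hadj1
    omega
  -- the property of having a later neighbour on the other side
  set E : Fin 72 → Prop := fun e => e.val / 24 = c ∧
    ∃ a : Fin 72, a.val / 24 = c ∧ a.val % 2 ≠ e.val % 2 ∧ x e < x a ∧ KK.Adj e a with hE
  have same : ∀ e1 e2 : Fin 72, E e1 → E e2 → e1.val % 2 = e2.val % 2 → (T e1 ↔ T e2) →
      e1.val / 4 = e2.val / 4 := by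
    rintro e1 e2 ⟨h1, a1, ha1, hs1, hx1, hadj1⟩ ⟨h2, a2, ha2, hs2, hx2, hadj2⟩ hs hcl
    rcases lt_trichotomy (x e1) (x e2) with h | h | h
    · exact key e1 e2 a2 h1 h2 ha2 hs hs2 hcl hx2 hadj2 (Or.inl h)
    · by_cases hTe : T e2
      · rcases le_total (y e1) (y e2) with hy | hy
        · exact key e1 e2 a2 h1 h2 ha2 hs hs2 hcl hx2 hadj2 (Or.inr ⟨h, Or.inl ⟨hTe, hy⟩⟩)
        · exact (key e2 e1 a1 h2 h1 ha1 hs.symm hs1 hcl.symm hx1 hadj1
            (Or.inr ⟨h.symm, Or.inl ⟨hcl.2 hTe, hy⟩⟩)).symm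
      · rcases le_total (y e1) (y e2) with hy | hy
        · exact (key e2 e1 a1 h2 h1 ha1 hs.symm hs1 hcl.symm hx1 hadj1
            (Or.inr ⟨h.symm, Or.inr ⟨fun hh => hTe (hcl.1 hh), hy⟩⟩)).symm
        · exact key e1 e2 a2 h1 h2 ha2 hs hs2 hcl hx2 hadj2 (Or.inr ⟨h, Or.inr ⟨hTe, hy⟩⟩)
    · exact (key e2 e1 a1 h2 h1 ha1 hs.symm hs1 hcl.symm hx1 hadj1 (Or.inl h)).symm
  -- components without such a vertex
  classical
  set bad : Fin 6 → Prop := fun p => ∃ e : Fin 72, E e ∧ (e.val % 24) / 4 = p.val with hbad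
  have hbadcard : (Finset.univ.filter bad).card ≤ 4 := by
    by_contra hcon
    rw [not_le] at hcon
    have hch : ∀ p : Fin 6, ∃ e : Fin 72, p ∈ Finset.univ.filter bad →
        (E e ∧ (e.val % 24) / 4 = p.val) := by
      intro p
      by_cases hp : bad p
      · obtain ⟨e, he⟩ := hp
        exact ⟨e, fun _ => he⟩
      · exact ⟨0, fun h => absurd (Finset.mem_filter.1 h).2 hp⟩
    choose e he using hch
    let f : Fin 6 → Fin 2 × Bool := fun p => (⟨(e p).val % 2, by omega⟩, decide (T (e p)))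
    have hcard : (Finset.univ : Finset (Fin 2 × Bool)).card < (Finset.univ.filter bad).card := by
      have : (Finset.univ : Finset (Fin 2 × Bool)).card = 4 := by decide
      rw [this]
      exact hcon
    obtain ⟨p, hp, q, hq, hpq, hf⟩ :=
      Finset.exists_ne_map_eq_of_card_lt_of_maps_to hcard (fun p _ => Finset.mem_univ (f p))
    have h1 := congrArg Prod.fst hf
    have h2 := congrArg Prod.snd hf
    have h1' : (e p).val % 2 = (e q).val % 2 := congrArg Fin.val h1
    have h2' : (T (e p) ↔ T (e q)) := by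
      have : decide (T (e p)) = decide (T (e q)) := h2
      exact decide_eq_decide.1 this
    obtain ⟨Ep, cp⟩ := he p hp
    obtain ⟨Eq, cq⟩ := he q hq
    have h3 := same (e p) (e q) Ep Eq h1' h2'
    apply hpq
    apply Fin.ext
    omega
  have hgood : 2 ≤ (Finset.univ.filter (fun p => ¬ bad p)).card := by
    have h1 := Finset.card_filter_add_card_filter_not (s := (Finset.univ : Finset (Fin 6))) bad
    have h2 : (Finset.univ : Finset (Fin 6)).card = 6 := by simp
    omega
  obtain ⟨p, hp, q, hq, hpq⟩ := Finset.one_lt_card.1 (by omega :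
    1 < (Finset.univ.filter (fun p => ¬ bad p)).card)
  -- in a good component all four abscissas coincide
  have tie : ∀ p : Fin 6, ¬ bad p → ∀ j : ℕ, ∀ hj : j + 1 < 4,
      x (vtx c p.val j ⟨hc3, p.isLt, by omega⟩) = x (vtx c p.val (j + 1) ⟨hc3, p.isLt, hj⟩) := by
    intro p hp j hj
    by_contra hne
    have hp6 := p.isLt
    have hb1 : (vtx c p.val j ⟨hc3, p.isLt, by omega⟩).val = 24 * c + 4 * p.val + j := rfl
    have hb2 : (vtx c p.val (j + 1) ⟨hc3, p.isLt, hj⟩).val = 24 * c + 4 * p.val + (j + 1) := rfl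
    have hadj : KK.Adj (vtx c p.val j ⟨hc3, p.isLt, by omega⟩)
        (vtx c p.val (j + 1) ⟨hc3, p.isLt, hj⟩) := by
      rw [KK_adj, hb1, hb2]
      omega
    apply hp
    rcases lt_or_gt_of_ne hne with h | h
    · refine ⟨vtx c p.val j ⟨hc3, p.isLt, by omega⟩, ⟨?_, _, ?_, ?_, h, hadj⟩, ?_⟩
      · rw [hb1]; omega
      · rw [hb2]; omega
      · rw [hb1, hb2]; omega
      · rw [hb1]; omega
    · refine ⟨vtx c p.val (j + 1) ⟨hc3, p.isLt, hj⟩, ⟨?_, _, ?_, ?_, h, hadj.symm⟩, ?_⟩
      · rw [hb2]; omega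
      · rw [hb1]; omega
      · rw [hb1, hb2]; omega
      · rw [hb2]; omega
  have atmin : ∀ p : Fin 6, ¬ bad p → ∀ j : ℕ, ∀ hj : j < 4,
      x (vtx c p.val j ⟨hc3, p.isLt, hj⟩) = x m0 := by
    intro p hp
    have t0 := tie p hp 0 (by omega)
    have t1 := tie p hp 1 (by omega)
    have t2 := tie p hp 2 (by omega)
    have hp6 := p.isLt
    have h0 : x (vtx c p.val 0 ⟨hc3, p.isLt, by omega⟩) = x m0 := by
      by_contra hne
      have hgt : x m0 < x (vtx c p.val 0 ⟨hc3, p.isLt, by omega⟩) :=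
        lt_of_le_of_ne (hm0 _) (Ne.symm hne)
      have hgt3 : x m0 < x (vtx c p.val 3 ⟨hc3, p.isLt, by omega⟩) := by
        rw [← t2, ← t1, ← t0]; exact hgt
      have hb0 : (vtx c p.val 0 ⟨hc3, p.isLt, by omega⟩).val = 24 * c + 4 * p.val + 0 := rfl
      have hb3 : (vtx c p.val 3 ⟨hc3, p.isLt, by omega⟩).val = 24 * c + 4 * p.val + 3 := rfl
      have m1 := hM _ (by rw [hb0]; omega) hgt
      have m3 := hM _ (by rw [hb3]; omega) hgt3
      have hne03 : vtx c p.val 0 ⟨hc3, p.isLt, by omega⟩ ≠ vtx c p.val 3 ⟨hc3, p.isLt, by omega⟩ := by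
        intro h
        have := congrArg Fin.val h
        rw [hb0, hb3] at this
        omega
      have hadj := (heq _ _ hne03 (by rw [t0, t1, t2])).2 ⟨m1.1.trans m3.2, m3.1.trans m1.2⟩
      rw [KK_adj, hb0, hb3] at hadj
      omega
    intro j hj
    interval_cases j
    · exact h0
    · rw [← t0]; exact h0
    · rw [← t1, ← t0]; exact h0
    · rw [← t2, ← t1, ← t0]; exact h0
  have hp' := (Finset.mem_filter.1 hp).2
  have hq' := (Finset.mem_filter.1 hq).2
  have hpv : p.val ≠ q.val := fun h => hpq (Fin.ext h)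
  have hp6 := p.isLt
  have hq6 := q.isLt
  have bp0 : (vtx c p.val 0 ⟨hc3, p.isLt, by omega⟩).val = 24 * c + 4 * p.val + 0 := rfl
  have bp1 : (vtx c p.val 1 ⟨hc3, p.isLt, by omega⟩).val = 24 * c + 4 * p.val + 1 := rfl
  have bq0 : (vtx c q.val 0 ⟨hc3, q.isLt, by omega⟩).val = 24 * c + 4 * q.val + 0 := rfl
  have bq1 : (vtx c q.val 1 ⟨hc3, q.isLt, by omega⟩).val = 24 * c + 4 * q.val + 1 := rfl
  have xp0 := atmin p hp' 0 (by omega)
  have xp1 := atmin p hp' 1 (by omega)
  have xq0 := atmin q hq' 0 (by omega)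
  have xq1 := atmin q hq' 1 (by omega)
  generalize hu0 : vtx c p.val 0 ⟨hc3, p.isLt, by omega⟩ = u0 at *
  generalize hu1 : vtx c p.val 1 ⟨hc3, p.isLt, by omega⟩ = u1 at *
  generalize hw0 : vtx c q.val 0 ⟨hc3, q.isLt, by omega⟩ = w0 at *
  generalize hw1 : vtx c q.val 1 ⟨hc3, q.isLt, by omega⟩ = w1 at *
  have ne1 : u0 ≠ u1 := fun h => by rw [h, bp1] at bp0; omega
  have ne2 : w0 ≠ w1 := fun h => by rw [h, bq1] at bq0; omega
  have ne3 : u0 ≠ w0 := fun h => by rw [h, bq0] at bp0; omega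
  have ne4 : u1 ≠ w1 := fun h => by rw [h, bq1] at bp1; omega
  have ne5 : u0 ≠ w1 := fun h => by rw [h, bq1] at bp0; omega
  have ne6 : u1 ≠ w0 := fun h => by rw [h, bq0] at bp1; omega
  have i1 := (heq u0 u1 ne1 (by rw [xp0, xp1])).1 (by rw [KK_adj, bp0, bp1]; omega)
  have i2 := (heq w0 w1 ne2 (by rw [xq0, xq1])).1 (by rw [KK_adj, bq0, bq1]; omega)
  have i3 := (heq u0 w0 ne3 (by rw [xp0, xq0])).1 (by rw [KK_adj, bp0, bq0]; omega)
  have i4 := (heq u1 w1 ne4 (by rw [xp1, xq1])).1 (by rw [KK_adj, bp1, bq1]; omega)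
  have i5 : ¬ (min (y u0) (s u0) ≤ max (y w1) (s w1) ∧ min (y w1) (s w1) ≤ max (y u0) (s u0)) := by
    rw [← heq u0 w1 ne5 (by rw [xp0, xq1]), KK_adj, bp0, bq1]
    omega
  have i6 : ¬ (min (y u1) (s u1) ≤ max (y w0) (s w0) ∧ min (y w0) (s w0) ≤ max (y u1) (s u1)) := by
    rw [← heq u1 w0 ne6 (by rw [xp1, xq0]), KK_adj, bp1, bq0]
    omega
  rw [not_and_or, not_le, not_le] at i5 i6
  rcases i5 with h | h <;> rcases i6 with h' | h' <;> linarith [i1.1, i1.2, i2.1, i2.2, i3.1, i3.2,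
    i4.1, i4.2]

/-- There is a graph that is a segment intersection graph and a `B₁`-VPG graph but not an
`{L, Γ}`-graph. -/
theorem result : ∃ K : SimpleGraph (Fin 72), IsSEG K ∧ IsB1VPG K ∧ ¬ IsLGamma K :=
  ⟨KK, KK_seg, KK_vpg, not_LG⟩

end Pool.Agent.Results.MP_34d506_co.NotEqual
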